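import Pool.Agent.Helper60.NB.Num
import Pool.Agent.Helper60.NB.Frm
import Pool.Agent.Helper70.NB.Wrap
import Pool.Agent.Helper27.NC.Word

/-!
# The programs (P), (U), (C) for blocks of bits
-/

set_option autoImplicit false

namespace Pool.Agent.Helper60.NC

open Pool.Agent.Helper19.NF
open Pool.Agent.Helper27.NB (num)
open Pool.Agent.Helper27.NC (bword table)
open Pool.Agent.Helper60.NB (read_symbols num_bound pushdown_program5 dec)

variable {K : Type} [Field K] [Fintype K]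

/-- The summand of a bit. -/
def alph {m : ℕ} (e : ℕ) (c : Bool × ZMod m) (l : K × K) (y : Bool) (i : Fin e) : K :=
  if y then l.2 * l.1 ^ (e * num c + i.val) else 0

theorem sum_alph {m e : ℕ} (J : (Fin e → K) × (K × K) → Bool) :
    (fun (b : Fin e → K) (c : Bool × ZMod m) => ∑ l, alph e c l (J (b, l))) = table J := by
  funext b c i
  rw [Finset.sum_apply]
  rfl

omit [Field K] in
theorem card_vec (e : ℕ) : Fintype.card (Fin e → K) = Fintype.card K ^ e := by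
  rw [Fintype.card_fun, Fintype.card_fin]

theorem two_le_card {e : ℕ} (he : 1 ≤ e) : 2 ≤ Fintype.card K ^ e :=
  (show 2 ≤ Fintype.card K from Fintype.one_lt_card).trans (Nat.le_self_pow (by omega) _)

omit [Field K] in
theorem card_sq : Fintype.card (K × K) = Fintype.card K ^ 2 := by
  rw [Fintype.card_prod, sq]

/-- (P): the pushdown program. -/
theorem push_words {n m e : ℕ} [NeZero m] (x0 : ZMod (n + 1) × ZMod m → Fin e → K) (he : 1 ≤ e)
    (hB : n * (n + 1) * m * (2 * m) ≤ Fintype.card K ^ e) (hK : Fintype.card K ^ 2 ≤ Fintype.card K ^ e) {N : ℕ}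
    (hN : (n * (n + 1) * m * Fintype.card K ^ 2) ^ 2 ≤ N) :
    ∃ (Q Γ : Type) (_ : Finite Q) (_ : Finite Γ) (P : PProg ((Fin e → K) × (K × K)) Bool (Fin e → K) Q Γ),
      Nat.card Q ≤ (2 * Fintype.card K ^ e) ^ 5 ∧ Nat.card Γ ≤ (2 * Fintype.card K ^ e) ^ 2 ∧
      ∀ J, P.Outputs J (out x0 (table J)) ∧ Nat.card {b // P.Asks J b} ^ 2 ≤ N := by
  obtain ⟨Q, Γ, h1, h2, P, h3, h4, h5⟩ := pushdown_program5 (Λ := K × K) (F := Bool) x0 (alph e)
    (by rw [card_vec]; exact hB) (by rw [card_vec]; exact two_le_card he) (by rw [card_vec, card_sq]; exact hK)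
  rw [card_vec] at h3 h4
  rw [card_sq] at h5
  refine ⟨Q, Γ, h1, h2, P, h3, h4, fun J => ⟨?_, (Nat.pow_le_pow_left (h5 J).2 2).trans hN⟩⟩
  rw [← sum_alph]
  exact (h5 J).1

/-- (U): the program without store. -/
theorem det_words {n m e : ℕ} [NeZero m] (hn : 1 ≤ n) (x0 : ZMod (n + 1) × ZMod m → Fin e → K)
    (hB : n * (n + 1) * m ≤ Fintype.card K ^ e) (hK : Fintype.card K ^ 2 ≤ Fintype.card K ^ e) {N : ℕ}
    (hN : (n * (n + 1) * m * Fintype.card K ^ 2) ^ 2 ≤ N) :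
    ∃ (S : ℕ) (P : Prog ((Fin e → K) × (K × K)) Bool (Fin e → K) 1 S),
      S ≤ (2 * Fintype.card K ^ e) ^ (4 * n + 2) ∧
      ∀ J, P.Outputs J (P.start 0) (out x0 (table J)) ∧ Nat.card {b // P.Asks J (P.start 0) b} ^ 2 ≤ N := by
  obtain ⟨S, P, h1, h2⟩ := Pool.Agent.Helper70.NB.det_program (Λ := K × K) (F := Bool) hn x0 (alph e)
    (by rw [card_vec]; exact hB) (by rw [card_vec, card_sq]; exact hK)
  rw [card_vec] at h1
  rw [card_sq] at h2
  refine ⟨S, P, h1, fun J => ⟨?_, (Nat.pow_le_pow_left (h2 J).2 2).trans hN⟩⟩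
  rw [← sum_alph]
  exact (h2 J).1

omit [Field K] [Fintype K] in
/-- (C), B19': a program which may read all bits. -/
theorem read_words : ∃ C n0 : ℕ, ∀ (n m e : ℕ) [NeZero m] (K : Type) [Field K] [Fintype K]
    (x0 : ZMod (n + 1) × ZMod m → Fin e → K), n0 ≤ n → 1 ≤ e →
    (m : ℝ) ≤ Real.log n ^ 2 → Fintype.card K ^ 2 ≤ n → Fintype.card K ^ e ≤ n ^ 6 →
    ∃ (S : ℕ) (P : Prog ((Fin e → K) × (K × K)) Bool (Fin e → K) 1 S),
      (S : ℝ) ≤ Real.log n ^ (C * n) ∧ ∀ J, P.Outputs J (P.start 0) (out x0 (table J)) := by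
  obtain ⟨C₀, hC₀, h⟩ := read_symbols
  obtain ⟨C, hC⟩ := exists_nat_ge (5 * C₀ + 1)
  obtain ⟨n0, hn0⟩ := exists_nat_ge (Real.exp 216)
  refine ⟨C, n0, fun n m e _ K _ _ x0 hn he hm hq hk => ?_⟩
  have hn' : Real.exp 216 ≤ n := hn0.trans (by exact_mod_cast hn)
  have hnp : (0 : ℝ) < n := (Real.exp_pos _).trans_le hn'
  have h216 : 216 ≤ Real.log n := (Real.le_log_iff_exp_le hnp).2 hn'
  have hk2 : 2 ≤ Fintype.card K ^ e := two_le_card he
  have hm1 : 1 ≤ m := Nat.one_le_iff_ne_zero.2 (NeZero.ne m)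
  obtain ⟨S, P, hP, hS⟩ := h n m (Fin e → K) (K × K) Bool (alph e) x0 (by exact_mod_cast hnp)
    (by rw [card_vec]; exact hk2)
  refine ⟨S, P, hS.trans ?_, fun J => ?_⟩
  · rw [card_vec, card_sq]
    exact num_bound C₀ hC₀ n m (Fintype.card K ^ e) _ C _ rfl h216 hC hm1 hm hk2 hk hq
  · rw [← sum_alph]
    exact hP J

end Pool.Agent.Helper60.NC
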